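import Pool.Agent.WidthRel.Main

set_option autoImplicit false

namespace Pool.Agent.Results.MP_87dd11_al.MaximalRelations

open Pool.Agent.WidthRel

/-- The number of minimal relations of a numerical semigroup of width `w` with `e` minimal
generators is at most `choose (w+1) 2 - 3 * (w + 1 - e) / 2`, for every `w` the value
`choose (w+1) 2` is attained, and so the supremum `maxRel w` over all numerical semigroups of
width `w` is `choose (w+1) 2`. The last two items say that the number of minimal relations is the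
cardinality of every minimal presentation, and that `minGens Γ` is the least generating set
of `Γ`. -/
theorem result :
    (∀ w : ℕ, maxRel w = ((w + 1).choose 2 : ℕ)) ∧
    (∀ w : ℕ, ∃ Γ : AddSubmonoid ℕ, IsNumerical Γ ∧ HasWidth Γ w ∧
      rho Γ = ((w + 1).choose 2 : ℕ)) ∧
    (∀ (Γ : AddSubmonoid ℕ) (w : ℕ), IsNumerical Γ → HasWidth Γ w →
      (minGens Γ).ncard ≤ w + 1 ∧
      ∃ r : ℕ, rho Γ = r ∧ 2 * r + 3 * (w + 1 - (minGens Γ).ncard) ≤ w * (w + 1)) ∧
    (∀ Γ : AddSubmonoid ℕ, IsNumerical Γ → (∃ σ, IsMinimalPresentation Γ σ) ∧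
      ∀ σ, IsMinimalPresentation Γ σ → σ.encard = rho Γ) ∧
    (∀ Γ : AddSubmonoid ℕ, IsLeast {A : Set ℕ | AddSubmonoid.closure A = Γ} (minGens Γ)) :=
  main

end Pool.Agent.Results.MP_87dd11_al.MaximalRelations
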